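import Mathlib
import Pool.Agent.Q182.Bern

/-!
# A system with an under-recurrent function with values in `[0,1]` and no under-recurrent set
-/

set_option autoImplicit false

open Set Filter Topology MeasureTheory
open scoped ENNReal

namespace Pool.Agent.Results.MP_73c876_an.FunctionNoSet

open Pool.Agent.Q182.Bern

/-- `A` is an under-recurrent set of the system `(X, μ, T)`. -/
def UnderSet {X : Type*} [MeasurableSpace X] (μ : Measure X) (T : X → X) (A : Set X) : Prop :=
  MeasurableSet A ∧ 0 < μ.real A ∧ μ.real A < 1 ∧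
    ∀ n : ℕ, 1 ≤ n → μ.real (A ∩ T^[n] ⁻¹' A) ≤ μ.real A ^ 2

/-- `f` is an under-recurrent function of the system `(X, μ, T)`: it is in `L²`, not a.e.
constant, and `∫ f · f ∘ T^n ≤ (∫ f)²` for all `n ≥ 1`. -/
def UnderFun {X : Type*} [MeasurableSpace X] (μ : Measure X) (T : X → X) (f : X → ℝ) : Prop :=
  MemLp f 2 μ ∧ (¬ ∃ c : ℝ, ∀ᵐ x ∂μ, f x = c) ∧
    ∀ n : ℕ, 1 ≤ n → ∫ x, f x * f (T^[n] x) ∂μ ≤ (∫ x, f x ∂μ) ^ 2

/-- fair coin -/
noncomputable def coin : Measure Bool :=
  (2 : ℝ≥0∞)⁻¹ • Measure.dirac true + (2 : ℝ≥0∞)⁻¹ • Measure.dirac false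

instance : IsProbabilityMeasure coin := by
  constructor
  simp [coin, ENNReal.inv_two_add_inv_two]

/-- two-sided fair Bernoulli measure -/
noncomputable def P : Measure (ℤ → Bool) := Measure.infinitePi fun _ : ℤ => coin

instance : IsProbabilityMeasure P := by unfold P; infer_instance

/-- two-sided shift -/
def S : (ℤ → Bool) ≃ᵐ (ℤ → Bool) :=
  MeasurableEquiv.piCongrLeft (fun _ : ℤ => Bool) (Equiv.subRight (1 : ℤ))

lemma S_eq : (S : (ℤ → Bool) → (ℤ → Bool)) = sh (fun i : ℤ => i + 1) := by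
  funext x
  funext i
  show (MeasurableEquiv.piCongrLeft (fun _ : ℤ => Bool) (Equiv.subRight (1 : ℤ))) x i = x (i + 1)
  have : i = (Equiv.subRight (1 : ℤ)) (i + 1) := by simp
  conv_lhs => rw [this]
  rw [MeasurableEquiv.piCongrLeft_apply_apply]

lemma add_one_iterate (n : ℕ) (i : ℤ) : (fun i : ℤ => i + 1)^[n] i = i + n := by
  induction n with
  | zero => simp
  | succ n ih => rw [Function.iterate_succ_apply', ih]; push_cast; ring

lemma S_iterate (n : ℕ) (x : ℤ → Bool) (i : ℤ) : (S : (ℤ → Bool) → (ℤ → Bool))^[n] x i = x (i + n) := by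
  rw [S_eq, sh_iterate]
  show x _ = _
  rw [add_one_iterate]

lemma S_mp : MeasurePreserving S P P := by
  have := sh_mp coin (σ := fun i : ℤ => i + 1) (add_left_injective 1)
  rw [← S_eq] at this
  exact this

lemma S_mix (A B : Set (ℤ → Bool)) (hA : MeasurableSet A) (hB : MeasurableSet B) :
    Mix P (S : (ℤ → Bool) → (ℤ → Bool)) A B := by
  rw [S_eq]
  refine sh_mixing coin (add_left_injective 1) ?_ A B hA hB
  intro i j
  filter_upwards [eventually_gt_atTop (j - i).toNat] with n hn
  rw [add_one_iterate]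
  omega

/-- the space: the Bernoulli shift and one more point -/
abbrev X := (ℤ → Bool) ⊕ Unit

/-- the measure -/
noncomputable def μ : Measure X :=
  (2 : ℝ≥0∞)⁻¹ • P.map Sum.inl + (2 : ℝ≥0∞)⁻¹ • Measure.dirac (Sum.inr ())

lemma μ_real {A : Set X} (hA : MeasurableSet A) :
    μ.real A = (P.real (Sum.inl ⁻¹' A) + A.indicator 1 (Sum.inr ())) / 2 := by
  have h : μ A = (2 : ℝ≥0∞)⁻¹ * P (Sum.inl ⁻¹' A) + (2 : ℝ≥0∞)⁻¹ * (A.indicator 1 (Sum.inr ())) := by
    simp only [μ, Measure.add_apply, Measure.smul_apply, smul_eq_mul,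
      Measure.map_apply measurable_inl hA, Measure.dirac_apply' _ hA]
  rw [measureReal_def, h, ENNReal.toReal_add, ENNReal.toReal_mul, ENNReal.toReal_mul,
    measureReal_def]
  · have : (A.indicator (1 : X → ℝ≥0∞) (Sum.inr ())).toReal = A.indicator (1 : X → ℝ) (Sum.inr ()) := by
      by_cases hx : (Sum.inr () : X) ∈ A <;> simp [hx]
    rw [this]
    simp
    ring
  · exact ENNReal.mul_ne_top (by simp) (measure_ne_top _ _)
  · refine ENNReal.mul_ne_top (by simp) ?_
    by_cases hx : (Sum.inr () : X) ∈ A <;> simp [hx]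

instance : IsProbabilityMeasure μ := by
  constructor
  simp only [μ, Measure.add_apply, Measure.smul_apply, smul_eq_mul,
      Measure.map_apply measurable_inl MeasurableSet.univ, preimage_univ, measure_univ, mul_one]
  exact ENNReal.inv_two_add_inv_two

lemma integral_μ {g : X → ℝ} (hg : Measurable g) (hb : ∃ C, ∀ x, |g x| ≤ C) :
    ∫ x, g x ∂μ = (∫ y, g (Sum.inl y) ∂P + g (Sum.inr ())) / 2 := by
  obtain ⟨C, hC⟩ := hb
  have h1 : Integrable g ((2 : ℝ≥0∞)⁻¹ • P.map Sum.inl) := by
    have : IsFiniteMeasure ((2 : ℝ≥0∞)⁻¹ • P.map (Sum.inl : (ℤ → Bool) → X)) := by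
      have : IsProbabilityMeasure (P.map (Sum.inl : (ℤ → Bool) → X)) :=
        Measure.isProbabilityMeasure_map (measurable_inl (β := Unit)).aemeasurable
      exact Measure.smul_finite _ (by simp)
    exact Integrable.of_bound hg.aestronglyMeasurable C (Eventually.of_forall hC)
  have h2 : Integrable g ((2 : ℝ≥0∞)⁻¹ • Measure.dirac (Sum.inr () : X)) := by
    have : IsFiniteMeasure ((2 : ℝ≥0∞)⁻¹ • Measure.dirac (Sum.inr () : X)) :=
      Measure.smul_finite _ (by simp)
    exact Integrable.of_bound hg.aestronglyMeasurable C (Eventually.of_forall hC)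
  rw [μ, integral_add_measure h1 h2, integral_smul_measure, integral_smul_measure,
    integral_map measurable_inl.aemeasurable hg.aestronglyMeasurable,
    integral_dirac' _ _ hg.stronglyMeasurable]
  simp
  ring

/-- the transformation: the shift, the point is fixed -/
def T : X ≃ᵐ X := MeasurableEquiv.sumCongr S (MeasurableEquiv.refl Unit)

lemma T_inl (n : ℕ) (y : ℤ → Bool) :
    (T : X → X)^[n] (Sum.inl y) = Sum.inl ((S : (ℤ → Bool) → (ℤ → Bool))^[n] y) := by
  induction n with
  | zero => rfl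
  | succ n ih =>
    rw [Function.iterate_succ_apply', Function.iterate_succ_apply', ih]
    rfl

lemma T_inr (n : ℕ) : (T : X → X)^[n] (Sum.inr ()) = Sum.inr () := by
  induction n with
  | zero => rfl
  | succ n ih =>
    rw [Function.iterate_succ_apply', ih]
    rfl

lemma T_mp : MeasurePreserving T μ μ := by
  refine ⟨T.measurable, ?_⟩
  have e1 : (P.map (Sum.inl : (ℤ → Bool) → X)).map T = P.map Sum.inl := by
    rw [Measure.map_map T.measurable measurable_inl]
    have : (T : X → X) ∘ Sum.inl = Sum.inl ∘ (S : (ℤ → Bool) → (ℤ → Bool)) := by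
      funext y
      exact T_inl 1 y
    rw [this, ← Measure.map_map measurable_inl S.measurable, S_mp.map_eq]
  have e2 : (Measure.dirac (Sum.inr () : X)).map T = Measure.dirac (Sum.inr ()) := by
    rw [Measure.map_dirac' T.measurable]
    congr 1
  rw [μ, Measure.map_add _ _ T.measurable, Measure.map_smul, Measure.map_smul, e1, e2]

lemma meas_coord (k : ℤ) : MeasurableSet {y : ℤ → Bool | y k = true} := by
  have h : Measurable fun y : ℤ → Bool => y k := measurable_pi_apply k
  exact h (MeasurableSet.of_discrete (s := {true}))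

/-- the function -/
noncomputable def f : X → ℝ
  | Sum.inl y => if y 0 then 1 else 0
  | Sum.inr _ => 1 / 2

lemma f_meas : Measurable f := by
  refine measurable_fun_sum ?_ measurable_const
  exact Measurable.ite (meas_coord 0) measurable_const measurable_const

lemma f_mem (x : X) : 0 ≤ f x ∧ f x ≤ 1 := by
  rcases x with y | u
  · show 0 ≤ (if y 0 then (1 : ℝ) else 0) ∧ (if y 0 then (1 : ℝ) else 0) ≤ 1
    split_ifs <;> norm_num
  · show (0 : ℝ) ≤ 1 / 2 ∧ (1 / 2 : ℝ) ≤ 1
    norm_num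

lemma coin_true : coin {true} = 2⁻¹ := by
  simp [coin]

lemma P_zero : P.real {y | y 0 = true} = 1 / 2 := by
  have : {y : ℤ → Bool | y 0 = true} = (({0} : Finset ℤ) : Set ℤ).pi (fun _ => {true}) := by
    ext y; simp
  rw [measureReal_def, this, P, Measure.infinitePi_pi _ (fun _ _ => MeasurableSet.of_discrete)]
  simp [coin_true]

lemma P_two {n : ℕ} (hn : 1 ≤ n) : P.real {y | y 0 = true ∧ y n = true} = 1 / 4 := by
  have : {y : ℤ → Bool | y 0 = true ∧ y n = true} =
      (({0, (n : ℤ)} : Finset ℤ) : Set ℤ).pi (fun _ => {true}) := by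
    ext y; simp
  have hn' : (0 : ℤ) ≠ n := by omega
  rw [measureReal_def, this, P, Measure.infinitePi_pi _ (fun _ _ => MeasurableSet.of_discrete),
    Finset.prod_pair hn', coin_true]
  rw [ENNReal.toReal_mul, ENNReal.toReal_inv]
  norm_num

lemma int_ind {Q : (ℤ → Bool) → Prop} [DecidablePred Q] (hQ : MeasurableSet {y | Q y}) :
    ∫ y, (if Q y then (1 : ℝ) else 0) ∂P = P.real {y | Q y} := by
  have : (fun y => if Q y then (1 : ℝ) else 0) = {y | Q y}.indicator 1 := by
    funext y
    by_cases h : Q y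
    · rw [if_pos h, indicator_of_mem (show y ∈ {y | Q y} from h)]; rfl
    · rw [if_neg h, indicator_of_notMem (show y ∉ {y | Q y} from h)]
  rw [this, integral_indicator_one hQ]

lemma int_f : ∫ x, f x ∂μ = 1 / 2 := by
  rw [integral_μ f_meas ⟨1, fun x => by
    rw [abs_of_nonneg (f_mem x).1]; exact (f_mem x).2⟩]
  have : ∫ y, f (Sum.inl y) ∂P = 1 / 2 := by
    have h := int_ind (Q := fun y => y 0 = true) (meas_coord 0)
    rw [P_zero] at h
    exact h
  rw [this]
  show ((1 : ℝ) / 2 + 1 / 2) / 2 = 1 / 2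
  norm_num

lemma int_ff {n : ℕ} (hn : 1 ≤ n) : ∫ x, f x * f ((T : X → X)^[n] x) ∂μ = 1 / 4 := by
  rw [integral_μ (g := fun x => f x * f ((T : X → X)^[n] x))
    (f_meas.mul (f_meas.comp (T.measurable.iterate n))) ⟨1, fun x => by
    rw [abs_of_nonneg (mul_nonneg (f_mem x).1 (f_mem _).1)]
    exact mul_le_one₀ (f_mem x).2 (f_mem _).1 (f_mem _).2⟩]
  have : ∫ y, f (Sum.inl y) * f ((T : X → X)^[n] (Sum.inl y)) ∂P = 1 / 4 := by
    have h := int_ind (Q := fun y => y 0 = true ∧ y n = true)
      ((meas_coord 0).inter (meas_coord n))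
    rw [P_two hn] at h
    rw [← h]
    refine integral_congr_ae (Eventually.of_forall fun y => ?_)
    show f (Sum.inl y) * f ((T : X → X)^[n] (Sum.inl y)) = if y 0 = true ∧ y n = true then (1 : ℝ) else 0
    rw [T_inl]
    show (if y 0 then (1 : ℝ) else 0) *
      (if (S : (ℤ → Bool) → (ℤ → Bool))^[n] y 0 then (1 : ℝ) else 0) = _
    rw [S_iterate, zero_add]
    by_cases h1 : y 0 = true <;> by_cases h2 : y (n : ℤ) = true <;> simp [h1, h2]
  rw [this, T_inr]
  show ((1 : ℝ) / 4 + (1 / 2) * (1 / 2)) / 2 = 1 / 4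
  norm_num

lemma f_under : UnderFun μ T f := by
  refine ⟨MemLp.of_bound f_meas.aestronglyMeasurable 1 (Eventually.of_forall fun x => ?_), ?_, ?_⟩
  · rw [Real.norm_of_nonneg (f_mem x).1]; exact (f_mem x).2
  · rintro ⟨c, hc⟩
    have h1 : ∫ x, f x * f ((T : X → X)^[0] x) ∂μ = c ^ 2 := by
      rw [integral_congr_ae (g := fun _ => c ^ 2)]
      · simp
      · filter_upwards [hc] with x hx
        rw [Function.iterate_zero, id, hx, sq]
    have h2 : ∫ x, f x ∂μ = c := by
      rw [integral_congr_ae (g := fun _ => c) hc]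
      simp
    rw [int_f] at h2
    have h3 : ∫ x, f x * f ((T : X → X)^[0] x) ∂μ = 3 / 8 := by
      rw [integral_μ (g := fun x => f x * f ((T : X → X)^[0] x))
        (f_meas.mul (f_meas.comp (T.measurable.iterate 0))) ⟨1, fun x => by
        rw [abs_of_nonneg (mul_nonneg (f_mem x).1 (f_mem _).1)]
        exact mul_le_one₀ (f_mem x).2 (f_mem _).1 (f_mem _).2⟩]
      have : ∫ y, f (Sum.inl y) * f ((T : X → X)^[0] (Sum.inl y)) ∂P = 1 / 2 := by
        have h := int_ind (Q := fun y => y 0 = true) (meas_coord 0)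
        rw [P_zero] at h
        rw [← h]
        refine integral_congr_ae (Eventually.of_forall fun y => ?_)
        show (if y 0 then (1 : ℝ) else 0) * (if y 0 then (1 : ℝ) else 0) = _
        by_cases h1 : y 0 = true <;> simp [h1]
      rw [this]
      show ((1 : ℝ) / 2 + (1 / 2) * (1 / 2)) / 2 = 3 / 8
      norm_num
    rw [h1, ← h2] at h3
    norm_num at h3
  · intro n hn
    rw [int_ff hn, int_f]
    norm_num

lemma no_set (A : Set X) : ¬ UnderSet μ T A := by
  rintro ⟨hA, h0, h1, hn⟩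
  set a := P.real (Sum.inl ⁻¹' A) with ha
  set c : ℝ := A.indicator 1 (Sum.inr ()) with hc
  have hc2 : c = 0 ∨ c = 1 := by
    by_cases hx : (Sum.inr () : X) ∈ A
    · right; rw [hc, indicator_of_mem hx]; rfl
    · left; rw [hc, indicator_of_notMem hx]
  have hμA : μ.real A = (a + c) / 2 := μ_real hA
  have hmA : MeasurableSet (Sum.inl ⁻¹' A : Set (ℤ → Bool)) := measurable_inl hA
  have hmix := S_mix _ _ hmA hmA
  have hcorr : ∀ n : ℕ, μ.real (A ∩ (T : X → X)^[n] ⁻¹' A) =
      (P.real ((Sum.inl ⁻¹' A) ∩ (S : (ℤ → Bool) → (ℤ → Bool))^[n] ⁻¹' (Sum.inl ⁻¹' A)) + c) / 2 := by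
    intro n
    rw [μ_real (hA.inter ((T.measurable.iterate n) hA))]
    congr 2
    · congr 1
      ext y
      simp only [mem_preimage, mem_inter_iff, T_inl]
    · by_cases hx : (Sum.inr () : X) ∈ A
      · have hx2 : (Sum.inr () : X) ∈ A ∩ (T : X → X)^[n] ⁻¹' A := ⟨hx, by
          rw [mem_preimage, T_inr]; exact hx⟩
        rw [hc, indicator_of_mem hx, indicator_of_mem hx2]
      · have hx2 : (Sum.inr () : X) ∉ A ∩ (T : X → X)^[n] ⁻¹' A := fun h => hx h.1
        rw [hc, indicator_of_notMem hx, indicator_of_notMem hx2]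
  have hlim : Tendsto (fun n : ℕ => μ.real (A ∩ (T : X → X)^[n] ⁻¹' A)) atTop (𝓝 ((a * a + c) / 2)) := by
    simp only [hcorr]
    exact (hmix.add_const c).div_const 2
  have hle : (a * a + c) / 2 ≤ ((a + c) / 2) ^ 2 := by
    rw [← hμA]
    refine le_of_tendsto hlim ?_
    filter_upwards [eventually_ge_atTop 1] with n hn1
    exact hn n hn1
  rw [hμA] at h0 h1
  rcases hc2 with h | h
  · rw [h] at hle h0 h1
    nlinarith
  · rw [h] at hle h0 h1
    nlinarith [sq_nonneg (a - 1)]

/-- There is a system with an invertible transformation that has an under-recurrent function with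
values in `[0,1]`, but no under-recurrent set. -/
theorem result : ∃ (X : Type) (_ : MeasurableSpace X) (μ : Measure X) (_ : IsProbabilityMeasure μ)
    (T : X ≃ᵐ X), MeasurePreserving T μ μ ∧
      (∃ f : X → ℝ, UnderFun μ T f ∧ ∀ x, 0 ≤ f x ∧ f x ≤ 1) ∧
      ¬ ∃ A : Set X, UnderSet μ T A :=
  ⟨X, inferInstance, μ, inferInstance, T, T_mp, ⟨f, f_under, f_mem⟩, fun ⟨A, hA⟩ => no_set A hA⟩

end Pool.Agent.Results.MP_73c876_an.FunctionNoSet
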